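import Pool.Agent.helper55.VDI.SpecB1
import Pool.Agent.helper32.VD.EED

/-!
# Row vdi:EEDB (MP_07c750_an): the derivative in `t` of the coefficients, pairs of metrics
-/

set_option autoImplicit false

open scoped ContDiff Topology InnerProductSpace ComplexConjugate ENNReal
open MeasureTheory Filter Set

namespace Pool.Agent.VDI

open Pool.Agent.VD
open Pool.Agent.VQ (CH KZ PS perZ cmZ)
open Pool.Agent.RPQ (IsOp)
open Pool.Agent.VDA (STP FB FR FT nY OY OA)
open Pool.Agent.VDE (FDX)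

noncomputable section

variable {d : ℕ}

lemma EEDB_supp {f : V d → ℂ} {Cb : ℝ} (hf : ∀ w, f w ≠ 0 → ‖w‖ ≤ Cb) {z : V d} (hz : z ∉ Metric.closedBall (0 : V d) Cb) :
    z ∉ tsupport f := by
  intro h
  have h1 : tsupport f ⊆ Metric.closedBall (0 : V d) Cb := by
    refine closure_minimal (fun w hw => ?_) Metric.isClosed_closedBall
    exact mem_closedBall_zero_iff.mpr (hf w hw)
  exact hz (h1 h)

lemma EEDB_hop (G : V d → V d →L[ℝ] V d) (R : ℝ) {f : V d → ℂ} {z : V d} (hz : z ∉ tsupport f) : Hop G R f z = 0 := by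
  unfold Hop
  rw [EED_lapz G _ z hz, image_eq_zero_of_notMem_tsupport hz]
  simp

/-- the abstract form: beams `bb`, errors `ee`, functions `c` of phase space -/
lemma EEDB_main (G : V d → V d →L[ℝ] V d)
    (hdc : Continuous (dens G)) (R Cb : ℝ) (W : Set (P d)) (bb ee : P d → ℝ → V d → ℂ) (c : P d → ℂ)
    (hcc : Continuous c)
    (b2 : Continuous fun x : (P d × ℝ) × V d => bb x.1.1 x.1.2 x.2)
    (b5 : Continuous fun x : (P d × ℝ) × V d => lap G (bb x.1.1 x.1.2) x.2)
    (b6 : Continuous fun x : (P d × ℝ) × V d => ee x.1.1 x.1.2 x.2)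
    (b8 : ∀ (p : P d) (t : ℝ) (w : V d), HasDerivAt (fun s => bb p s w)
      (-(Complex.I * Hop G R (bb p t) w) - Complex.I * ee p t w) t)
    (hW : ∀ p ∈ W, ∀ t : ℝ, |t| ≤ 2 → ∀ w, (bb p t w ≠ 0 ∨ ee p t w ≠ 0) → ‖w‖ ≤ Cb)
    (u q : V d → ℂ) (hu : Continuous u) (hq : Continuous q) :
    (∀ p ∈ W, ∀ t ∈ Icc (0 : ℝ) 1, HasDerivAt (fun s => c p * ∫ z, dens G z • (u z * conj (bb p s z)))
      (Complex.I * (c p * ∫ z, dens G z • (q z * conj (bb p t z))) +
        Complex.I * (c p * ∫ z, dens G z • (u z * conj (ee p t z))) +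
        Complex.I * (c p * ∫ z, dens G z • (u z * conj (Hop G R (bb p t) z) - q z * conj (bb p t z)))) t) ∧
    (∀ v : V d → ℂ, Continuous v → ContinuousOn (fun x : P d × ℝ => c x.1 * ∫ z, dens G z • (v z * conj (bb x.1 x.2 z))) (W ×ˢ Icc 0 1)) ∧
    ContinuousOn (fun x : P d × ℝ => c x.1 * ∫ z, dens G z • (u z * conj (ee x.1 x.2 z))) (W ×ˢ Icc 0 1) ∧
    ContinuousOn (fun x : P d × ℝ => c x.1 * ∫ z, dens G z • (u z * conj (Hop G R (bb x.1 x.2) z) - q z * conj (bb x.1 x.2 z))) (W ×ˢ Icc 0 1) := by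
  have hIcc : ∀ t ∈ Icc (0 : ℝ) 1, |t| ≤ 2 := fun t ht => by
    rw [abs_of_nonneg ht.1]; linarith [ht.2]
  have hHc0 : Continuous fun x : (P d × ℝ) × V d => Hop G R (bb x.1.1 x.1.2) x.2 := by
    unfold Hop
    exact continuous_const.mul (b5.neg.sub (continuous_const.mul b2))
  -- continuity of the coefficients
  have hgen : ∀ (β : P d → ℝ → V d → ℂ), Continuous (fun x : (P d × ℝ) × V d => β x.1.1 x.1.2 x.2) →
      (∀ p ∈ W, ∀ t ∈ Icc (0 : ℝ) 1, ∀ w, w ∉ Metric.closedBall (0 : V d) Cb → β p t w = 0) →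
      ContinuousOn (fun x : P d × ℝ => c x.1 * ∫ z, dens G z • β x.1 x.2 z) (W ×ˢ Icc 0 1) := by
    intro β hβ hs
    refine (hcc.comp continuous_fst).continuousOn.mul ?_
    refine continuousOn_integral_of_compact_support (isCompact_closedBall (0 : V d) Cb) ?_ ?_
    · apply Continuous.continuousOn
      change Continuous fun x : (P d × ℝ) × V d => dens G x.2 • β x.1.1 x.1.2 x.2
      exact (hdc.comp continuous_snd).smul hβ
    · intro x z hx hz
      rw [hs x.1 hx.1 x.2 hx.2 z hz, smul_zero]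
  have hb0 : ∀ p ∈ W, ∀ t ∈ Icc (0 : ℝ) 1, ∀ w, w ∉ Metric.closedBall (0 : V d) Cb → bb p t w = 0 := by
    intro p hp t ht w hw
    by_contra hne
    exact hw (mem_closedBall_zero_iff.mpr (hW p hp t (hIcc t ht) w (Or.inl hne)))
  have he0 : ∀ p ∈ W, ∀ t ∈ Icc (0 : ℝ) 1, ∀ w, w ∉ Metric.closedBall (0 : V d) Cb → ee p t w = 0 := by
    intro p hp t ht w hw
    by_contra hne
    exact hw (mem_closedBall_zero_iff.mpr (hW p hp t (hIcc t ht) w (Or.inr hne)))
  have hh0 : ∀ p ∈ W, ∀ t ∈ Icc (0 : ℝ) 1, ∀ w, w ∉ Metric.closedBall (0 : V d) Cb → Hop G R (bb p t) w = 0 := by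
    intro p hp t ht w hw
    exact EEDB_hop G R (EEDB_supp (fun w hw => hW p hp t (hIcc t ht) w (Or.inl hw)) hw)
  refine ⟨?_, ?_, ?_, ?_⟩
  rotate_left
  · intro v hv
    refine hgen (fun p t z => v z * conj (bb p t z)) ((hv.comp continuous_snd).mul (Complex.continuous_conj.comp b2)) ?_
    intro p hp t ht w hw
    simp only [hb0 p hp t ht w hw, map_zero, mul_zero]
  · refine hgen (fun p t z => u z * conj (ee p t z)) ((hu.comp continuous_snd).mul (Complex.continuous_conj.comp b6)) ?_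
    intro p hp t ht w hw
    simp only [he0 p hp t ht w hw, map_zero, mul_zero]
  · refine hgen (fun p t z => u z * conj (Hop G R (bb p t) z) - q z * conj (bb p t z))
      (((hu.comp continuous_snd).mul (Complex.continuous_conj.comp hHc0)).sub ((hq.comp continuous_snd).mul (Complex.continuous_conj.comp b2))) ?_
    intro p hp t ht w hw
    simp only [hb0 p hp t ht w hw, hh0 p hp t ht w hw, map_zero, mul_zero, sub_zero]
  intro p hp' t ht
  have hemb : Continuous fun x : ℝ × V d => (((p, x.1), x.2) : (P d × ℝ) × V d) := by fun_prop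
  have hbc : Continuous fun x : ℝ × V d => bb p x.1 x.2 := b2.comp hemb
  have hec : Continuous fun x : ℝ × V d => ee p x.1 x.2 := b6.comp hemb
  have hHc : Continuous fun x : ℝ × V d => Hop G R (bb p x.1) x.2 := hHc0.comp hemb
  have hduc : Continuous fun x : ℝ × V d => dens G x.2 := hdc.comp continuous_snd
  have huc : Continuous fun x : ℝ × V d => u x.2 := hu.comp continuous_snd
  have hder := EED_par (fun s z => dens G z • (u z * conj (bb p s z)))
    (fun s z => dens G z • (u z * conj (-(Complex.I * Hop G R (bb p s) z) - Complex.I * ee p s z)))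
    (hduc.smul (huc.mul (Complex.continuous_conj.comp hbc)))
    (hduc.smul (huc.mul (Complex.continuous_conj.comp
      ((continuous_const.mul hHc).neg.sub (continuous_const.mul hec)))))
    (fun s z => by
      have h1 := b8 p s z
      have h2 := EED_conj _ _ s h1
      exact (h2.const_mul (u z)).const_smul (dens G z)) t Cb
    (fun s hs z hne => by
      have hs2 : |s| ≤ 2 := by
        rw [Metric.mem_ball, Real.dist_eq, abs_lt] at hs
        rw [abs_le]
        constructor <;> linarith [ht.1, ht.2]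
      refine hW p hp' s hs2 z (Or.inl fun h0 => hne ?_)
      rw [h0, map_zero, mul_zero, smul_zero])
  have hbs : HasCompactSupport (bb p t) := HasCompactSupport.intro (isCompact_closedBall (0 : V d) Cb) fun z hz => hb0 p hp' t ht z hz
  have hes : HasCompactSupport (ee p t) := HasCompactSupport.intro (isCompact_closedBall (0 : V d) Cb) fun z hz => he0 p hp' t ht z hz
  have hHs : HasCompactSupport (Hop G R (bb p t)) := HasCompactSupport.intro (isCompact_closedBall (0 : V d) Cb) fun z hz => hh0 p hp' t ht z hz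
  have hbt : Continuous (bb p t) := hbc.comp (continuous_const.prodMk continuous_id)
  have hHt : Continuous (Hop G R (bb p t)) := hHc.comp (continuous_const.prodMk continuous_id)
  have het : Continuous (ee p t) := hec.comp (continuous_const.prodMk continuous_id)
  have gen : ∀ v f : V d → ℂ, Continuous v → Continuous f → HasCompactSupport f →
      Integrable fun z => dens G z • (v z * conj (f z)) := by
    intro v f hv hf hfs
    have hcs : HasCompactSupport fun z => conj (f z) := hfs.comp_left (map_zero _)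
    exact (hdc.smul (hv.mul (Complex.continuous_conj.comp hf))).integrable_of_hasCompactSupport
      (hcs.mul_left.smul_left)
  have j1 := gen u _ hu hHt hHs
  have j2 := gen u _ hu het hes
  have j3 := gen q _ hq hbt hbs
  have hdiff : (∫ z, dens G z • (u z * conj (Hop G R (bb p t) z) - q z * conj (bb p t z))) =
      (∫ z, dens G z • (u z * conj (Hop G R (bb p t) z))) - ∫ z, dens G z • (q z * conj (bb p t z)) := by
    rw [← integral_sub j1 j3]
    refine integral_congr_ae (Eventually.of_forall fun z => ?_)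
    simp only [smul_sub]
  have hval : (∫ z, dens G z • (u z * conj (-(Complex.I * Hop G R (bb p t) z) - Complex.I * ee p t z))) =
      Complex.I * (∫ z, dens G z • (u z * conj (Hop G R (bb p t) z))) +
        Complex.I * ∫ z, dens G z • (u z * conj (ee p t z)) := by
    rw [← integral_const_mul, ← integral_const_mul, ← integral_add (j1.const_mul _) (j2.const_mul _)]
    refine integral_congr_ae (Eventually.of_forall fun z => ?_)
    simp only [map_sub, map_neg, map_mul, Complex.conj_I, Complex.real_smul]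
    ring
  rw [hval] at hder
  have hfin := hder.const_mul (c p)
  have e2 : Complex.I * (c p * ∫ z, dens G z • (q z * conj (bb p t z))) +
      Complex.I * (c p * ∫ z, dens G z • (u z * conj (ee p t z))) +
      Complex.I * (c p * ∫ z, dens G z • (u z * conj (Hop G R (bb p t) z) - q z * conj (bb p t z))) =
      c p * (Complex.I * (∫ z, dens G z • (u z * conj (Hop G R (bb p t) z))) +
        Complex.I * ∫ z, dens G z • (u z * conj (ee p t z))) := by
    rw [hdiff]
    ring
  rw [e2]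
  exact hfin

theorem EEDB_proof (hABMR : ABMR_stmt) (hACNF : ACNF_stmt) (hAMVI : AMVI_stmt) : EEDB_stmt := by
  intro d Γ _ _ K k B r0 χ hK hχ
  refine ⟨8, by norm_num, ?_⟩
  intro ch A hch hA
  refine ⟨16, by norm_num, ?_⟩
  intro R G Φ u q hR hOK hu hq
  have hR1 : 1 ≤ R := by linarith
  obtain ⟨hz, hzz, hz1, hz12, hz2, hz3, hz4, -⟩ := EAM1 hA (by norm_num)
  have hz8 : A.z1 ≤ 1 / 8 := by nlinarith
  obtain ⟨C, hC1, hC⟩ := hACNF d Γ K k B r0 2 hK
  obtain ⟨-, hd, hp, -, -, -, -, hint, -⟩ := hAMVI d Γ K k B G hK hOK.cls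
  obtain ⟨b1, b2, -, -, b5, b6, b7, b8⟩ := hABMR d Γ K k B G Φ 1 1 (Complex.I • 1) ch A.z1 R hOK EED_lag hch
    hz1 hz8 hR1
  have hcc : Continuous fun p : P d => ((χ p.1 * cR d ch A.z R : ℝ) : ℂ) :=
    Complex.continuous_ofReal.comp ((hχ.smooth.continuous.comp continuous_fst).mul continuous_const)
  have hrad : R ^ (-(1 / 2) + A.z1) ≤ 1 := Real.rpow_le_one_of_one_le_of_nonpos hR1 (by linarith)
  have hW : ∀ p ∈ WP G r0 2 R, ∀ t : ℝ, |t| ≤ 2 → ∀ w, (bt G Φ ch A.z1 R 1 (Complex.I • 1) p t w ≠ 0 ∨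
      Eb G Φ ch A.z1 R 1 (Complex.I • 1) p t w ≠ 0) → ‖w‖ ≤ C + 1 := by
    intro p hp' t ht w hw
    have hham : Ham G p ≤ 2 := by
      have h1 := (abs_le.mp hp'.2).2
      have h2 := EED_small R hR
      unfold Ep at h1
      linarith
    have h1 := (hC G Φ hOK p t hp'.1 hham ht).1
    have h2 := (b7 p t w hw).trans hrad
    calc ‖w‖ = ‖(w - (Φ t p).1) + (Φ t p).1‖ := by rw [sub_add_cancel]
      _ ≤ ‖w - (Φ t p).1‖ + ‖(Φ t p).1‖ := norm_add_le _ _
      _ ≤ C + 1 := by linarith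
  obtain ⟨m1, m2, m3, m4⟩ := EEDB_main G hd.continuous R (C + 1) (WP G r0 2 R)
    (fun p t w => bt G Φ ch A.z1 R 1 (Complex.I • 1) p t w)
    (fun p t w => Eb G Φ ch A.z1 R 1 (Complex.I • 1) p t w)
    (fun p : P d => ((χ p.1 * cR d ch A.z R : ℝ) : ℂ)) hcc b2 b5 b6 b8 hW u q hu hq
  have hP : ∀ (v : V d → ℂ) (t : ℝ), ∀ p ∈ WP G r0 2 R, aF G r0 R (fP G Φ χ ch A.z A.z1 R t) v (y1 Γ p) =
      ((χ p.1 * cR d ch A.z R : ℝ) : ℂ) * ∫ z, dens G z • (v z * conj (bt G Φ ch A.z1 R 1 (Complex.I • 1) p t z)) :=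
    fun v t p hp' => (EED_aF G r0 R _ v p hp').trans (EED_coef G (hint ℂ) _ v _)
  have hE : ∀ (v : V d → ℂ) (t : ℝ), ∀ p ∈ WP G r0 2 R, aF G r0 R (fE G Φ χ ch A.z A.z1 R t) v (y1 Γ p) =
      ((χ p.1 * cR d ch A.z R : ℝ) : ℂ) * ∫ z, dens G z • (v z * conj (Eb G Φ ch A.z1 R 1 (Complex.I • 1) p t z)) :=
    fun v t p hp' => (EED_aF G r0 R _ v p hp').trans (EED_coef G (hint ℂ) _ v _)
  refine ⟨?_, ?_, ?_, ?_⟩
  · intro p hp' t ht
    have h := m1 p hp' t ht
    have e1 : (fun s => aF G r0 R (fP G Φ χ ch A.z A.z1 R s) u (y1 Γ p)) =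
        fun s => ((χ p.1 * cR d ch A.z R : ℝ) : ℂ) * ∫ z, dens G z • (u z * conj (bt G Φ ch A.z1 R 1 (Complex.I • 1) p s z)) :=
      funext fun s => hP u s p hp'
    rw [e1, hP q t p hp', hE u t p hp']
    exact h
  · intro v hv
    exact (m2 v hv).congr fun x hx => hP v x.2 x.1 hx.1
  · exact m3.congr fun x hx => hE u x.2 x.1 hx.1
  · exact m4

end

end Pool.Agent.VDI
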