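import Pool.Agent.helper74.VDI.SpecA

/-!
# Row vdi:FNA (MP_07c750_an): the final theorem of version A
-/

set_option autoImplicit false

open scoped ContDiff Topology InnerProductSpace ENNReal ComplexConjugate
open MeasureTheory Filter Set

namespace Pool.Agent.VDI

open Pool.Agent.RPQ (PN PJ UN upd)
open Pool.Agent.VQ (CH rk)
open Pool.Agent.VN (aN)
open Pool.Agent.VD
open Pool.Agent.VDE (UWLD FDX)

noncomputable section

variable {d : ℕ}

theorem FNA_cfm (F : V d → ℝ) (m : ℕ) (s : ℕ → ℝ) (hs : ℕ → V d → ℝ) (G : V d → V d →L[ℝ] V d) :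
    cfm F (cfm (fun x => ∑ a : Fin m, (WithLp.toLp 2 (fun a : Fin m => s a) : V m) a * hs a x) G) =
      cfm (fun x => F x + ∑ a ∈ Finset.range m, s a * hs a x) G := by
  funext x
  unfold cfm
  rw [smul_smul, ← Real.exp_add]
  simp only [Finset.sum_range]

theorem FNA_cfm0 (F : V d → ℝ) (hs : ℕ → V d → ℝ) (G : V d → V d →L[ℝ] V d) (s : V 0) :
    cfm F (cfm (fun x => ∑ a : Fin 0, s a * hs a x) G) = cfm F G := by
  funext x
  unfold cfm
  simp

theorem FNA_proof (h1 : FNWF_stmt) (h2 : BC1I_stmt) (h3 : CFF_stmt) : FNA_stmt := by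
  intro d Γ _ _ hd c1 c2 c3 c4
  obtain ⟨k₀, J, u, a1, a2, a3, a4, a5⟩ := h1 d Γ hd c1 c2 c3 c4
  refine ⟨k₀, J, u, a1, a2, a3, a4, ?_⟩
  intro G hG hI hs hhs
  have hQ := a5 (fun m Gs => CFa Γ m Gs) (fun K F0 hK hF m Gs hGs => ⟨h3 d Γ m Gs hGs,
    fun r0 χ0 ch Cn k0 J p χ b1 b2 b3 => h2 d Γ K F0 r0 χ0 ch Cn k0 J p χ m Gs hd hK hF b1 b2 b3 hGs⟩)
  have hC : ∀ m : ℕ, CFa Γ m (fun s : V m => cfm (fun x => ∑ a : Fin m, s a * hs a x) G) :=
    fun m => ⟨G, fun a => hs a, hG, hI, fun a => hhs a, rfl⟩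
  have hae : ∀ᵐ ξ ∂(Measure.infinitePi fun _ : ℕ × ℕ => UN), ∀ (m : ℕ) (s : ℕ → ℝ), NegativelyCurved (cfm (fun x => (∑' k, ∑ j ∈ Finset.range (J k), ξ (k, j) * u k j x) + ∑ a ∈ Finset.range m, s a * hs a x) G) →
          ∀ F : Set (V d), IsFundamentalDomain Γ F (volume : Measure (V d)) → QUE Γ F (cfm (fun x => (∑' k, ∑ j ∈ Finset.range (J k), ξ (k, j) * u k j x) + ∑ a ∈ Finset.range m, s a * hs a x) G) := by
    rw [ae_all_iff]
    intro m
    filter_upwards [(hQ m _ (hC m)).1] with ξ hξ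
    intro s hn F hF
    have h := hξ (WithLp.toLp 2 (fun a : Fin m => s a) : V m)
    simp only at h
    rw [FNA_cfm (fun x => ∑' k, ∑ j ∈ Finset.range (J k), ξ (k, j) * u k j x) m s hs G] at h
    exact h hn F hF
  refine ⟨hae, ?_⟩
  intro hN L n₀ τ hL hτ
  have h0 := (hQ 0 _ (hC 0)).2 {0} isCompact_singleton (fun s hs0 => by
    have : cfm (fun x => ∑ a : Fin 0, s a * hs a x) G = G := by
      funext x
      unfold cfm
      simp
    simp only
    rw [this]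
    exact hN) L n₀ τ hL hτ
  refine lt_of_lt_of_le h0 (measure_mono_ae ?_)
  filter_upwards [hae] with ξ hξ
  rintro ⟨g1, g2⟩
  refine ⟨g1, ?_, hξ⟩
  have h := (g2 0 rfl).1
  rwa [FNA_cfm0] at h

end

end Pool.Agent.VDI
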