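import Pool.Agent.helper11.VDI.SpecC
import Pool.Agent.helper38.VD.NNC

/-!
# Row vdi:NNB (MP_07c750_an): norms and means of a nearby metric
-/

set_option autoImplicit false

open scoped ContDiff Topology InnerProductSpace ENNReal ComplexConjugate
open MeasureTheory Filter Set

namespace Pool.Agent.VDI

open Pool.Agent.RPQ (PN PJ UN upd IsOp)
open Pool.Agent.VQ (CH AdZ perZ rk)
open Pool.Agent.VN (aN)
open Pool.Agent.VD
open Pool.Agent.VDE (UWLD FDX)

noncomputable section

theorem NNB_proof (hDNB : DNB_stmt) (hMVE : VD.MVE_stmt) : NNB_stmt := by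
  intro d M hM
  obtain ⟨C0, η0, hC0, hη0, hD⟩ := hDNB d M hM
  refine ⟨4 * C0, η0, by linarith, hη0, fun G G' h φ F b η hG hG' hη hηη hFm hFb hFG hφ hh hh1 => ?_⟩
  obtain ⟨c1, c2, c3, c4, c5⟩ := hMVE d G hG
  obtain ⟨c1', c2', c3', c4', c5'⟩ := hMVE d G' hG'
  have hdp : ∀ x, 0 ≤ dens G x := fun x => (c2 x).le
  have hφ2 : Continuous fun x => ‖φ x‖ ^ 2 := by fun_prop
  have hcmp : ∀ x ∈ F, |dens G' x - dens G x| ≤ C0 * η * dens G x := fun x hx =>
    hD G G' x η hG hG' hη hηη (hFG x hx).1 (hFG x hx).2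
  -- the general comparison
  have key : ∀ g w : V d → ℝ, Continuous g → Continuous w → (∀ x, |g x| ≤ w x) → |(∫ x in F, g x * dens G' x) - ∫ x in F, g x * dens G x| ≤ C0 * η * ∫ x in F, w x * dens G x := by
    intro g w hg hw hgw
    have i1 : IntegrableOn (fun x => g x * dens G' x) F volume := NNC_int (hg.mul c1') hFb
    have i0 : IntegrableOn (fun x => g x * dens G x) F volume := NNC_int (hg.mul c1) hFb
    have i2 : IntegrableOn (fun x => C0 * η * (w x * dens G x)) F volume := NNC_int (continuous_const.mul (hw.mul c1)) hFb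
    rw [← integral_sub i1 i0, ← integral_const_mul, ← Real.norm_eq_abs]
    refine norm_integral_le_of_norm_le i2 (ae_restrict_of_forall_mem hFm fun x hx => ?_)
    have h1 : g x * dens G' x - g x * dens G x = g x * (dens G' x - dens G x) := by ring
    rw [h1, norm_mul, Real.norm_eq_abs, Real.norm_eq_abs]
    calc |g x| * |dens G' x - dens G x| ≤ w x * (C0 * η * dens G x) :=
          mul_le_mul (hgw x) (hcmp x hx) (abs_nonneg _) ((abs_nonneg _).trans (hgw x))
      _ = C0 * η * (w x * dens G x) := by ring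
  have hnn : nn G F φ = ∫ x in F, ‖φ x‖ ^ 2 * dens G x := by
    unfold nn
    exact c3 F _ hFm
  have hnn' : nn G' F φ = ∫ x in F, ‖φ x‖ ^ 2 * dens G' x := by
    unfold nn
    exact c3' F _ hFm
  have hnn0 : 0 ≤ nn G F φ := by
    unfold nn
    exact integral_nonneg fun x => by positivity
  have hle : C0 * η * nn G F φ ≤ 4 * C0 * η * nn G F φ := by
    refine mul_le_mul_of_nonneg_right (mul_le_mul_of_nonneg_right (by linarith) hη) hnn0
  refine ⟨?_, ?_, ?_⟩
  · refine le_trans ?_ hle
    rw [c3' F _ hFm, c3 F _ hFm, hnn]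
    refine key (fun x => h x * ‖φ x‖ ^ 2) (fun x => ‖φ x‖ ^ 2) (hh.mul hφ2) hφ2 (fun x => ?_)
    rw [abs_mul, abs_of_nonneg (hh1 x).1, abs_of_nonneg (by positivity : (0 : ℝ) ≤ ‖φ x‖ ^ 2)]
    exact mul_le_of_le_one_left (by positivity) (hh1 x).2
  · refine le_trans ?_ hle
    rw [hnn', hnn]
    exact key (fun x => ‖φ x‖ ^ 2) (fun x => ‖φ x‖ ^ 2) hφ2 hφ2 (fun x => le_of_eq (abs_of_nonneg (by positivity)))
  · have hm : mean G F h = (∫ x in F, h x * dens G x) / ∫ x in F, dens G x := by
      unfold mean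
      rw [c3 F _ hFm, (c4 F b hFm hFb).2]
    have hm' : mean G' F h = (∫ x in F, h x * dens G' x) / ∫ x in F, dens G' x := by
      unfold mean
      rw [c3' F _ hFm, (c4' F b hFm hFb).2]
    have h01' := c5' F h hFm hh1
    rw [hm'] at h01'
    rw [hm, hm']
    have k1 := key h (fun _ => 1) hh continuous_const (fun x => by rw [abs_of_nonneg (hh1 x).1]; exact (hh1 x).2)
    have k2 := key (fun _ => 1) (fun _ => 1) continuous_const continuous_const (fun x => by simp)
    simp only [one_mul] at k1 k2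
    have h0 : 0 ≤ ∫ x in F, h x * dens G x := integral_nonneg fun x => mul_nonneg (hh1 x).1 (hdp x)
    have hle2 : (∫ x in F, h x * dens G x) ≤ ∫ x in F, dens G x :=
      integral_mono (NNC_int (hh.mul c1) hFb) (NNC_int c1 hFb) (fun x => mul_le_of_le_one_left (hdp x) (hh1 x).2)
    have h3 := NNC_mean h0 hle2 h01' (by positivity) k1 k2
    refine h3.trans (le_of_eq ?_)
    ring

end

end Pool.Agent.VDI
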